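import Pool.Agent.Q253.SL2.Invar

/-!
# The `sl(2)` weight system at `c = -3/32` extends to a 4-invariant of graphs

The extension is explicit.  For a graph `G` on `V` and a natural number `m` let

`S_G(m) = ∑_s ∏_{ij ∈ E(G)} (-1) ^ #{(a, b) : s(i, a) = s(j, b)}`,

the sum over all `s : V × {0, 1} → {1, …, m}` with `s(i, 0) ≠ s(i, 1)` for all `i`.  This is a
polynomial in `m`, and `ξ(G) = (-1/64) ^ |V| S_G(-2)`.

* The 4-term relation holds for `S_G(m)`, for every `m`, by an explicit involution on colourings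
  (`Pool.Agent.Q253.SL2.wt_four`).
* `C` acts by `-3/32` in the oscillator representation of `U(sl(2))` on `ℂ[X]`.  The Casimir tensor is
  there `-1/32 ∑ u_a u_c ⊗ q_t(a, c)` in the generators `x, ∂` of the Weyl algebra, so that the value
  of a chord diagram becomes a sum of words in the Weyl algebra with doubled chords, and such words
  are evaluated by the value at `m = -2` of a sum over colourings (`Pool.Agent.Q253.SL2.Hs_eq`).
* The centralizer of the generators of `U(sl(2))` is `ℂ[C]` and `C` is transcendental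
  (`Pool.Agent.Q253.SL2.centralizer`, `Pool.Agent.Q253.SL2.aeval_Cas_injective`), so the value of a
  chord diagram is `p(C)` for exactly one polynomial `p`.
-/

namespace Pool.Agent.Results.MP_4cfd5d_gt.OscillatorExtension

open Pool.Agent.Q253.SL2

attribute [local instance 100] LieRing.ofAssociativeRing

/-- The universal enveloping algebra of `sl(2)`, the Lie algebra of complex `2 × 2` matrices of
trace zero. -/
abbrev Usl2 := UniversalEnvelopingAlgebra ℂ (LieAlgebra.SpecialLinear.sl (Fin 2) ℂ)

/-- `E` in `U(sl(2))`; `sE` is the matrix `!![0, 1; 0, 0]`. -/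
noncomputable def E : Usl2 := UniversalEnvelopingAlgebra.ι ℂ sE

/-- `F` in `U(sl(2))`; `sF` is the matrix `!![0, 0; 1, 0]`. -/
noncomputable def F : Usl2 := UniversalEnvelopingAlgebra.ι ℂ sF

/-- `H` in `U(sl(2))`; `sH` is the matrix `!![1, 0; 0, -1]`. -/
noncomputable def H : Usl2 := UniversalEnvelopingAlgebra.ι ℂ sH

/-- The Casimir element `C = (EF + FE + H²/2)/4`. -/
noncomputable def casimir : Usl2 := (1 / 4 : ℂ) • (E * F + F * E + (1 / 2 : ℂ) • (H * H))

/-- The value of a chord diagram in `U(sl(2))`: every chord carries the Casimir tensor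
`(E ⊗ F + F ⊗ E + (1/2) H ⊗ H)/4`, the three summands of which are indexed by `Fin 3`, with its
legs at the two ends of the chord, and the legs are multiplied in the order of the `2n` points. -/
noncomputable def value {n : ℕ} (D : ChordDiagram n) : Usl2 :=
  ∑ s : Fin n → Fin 3, (List.ofFn fun p : Fin (2 * n) =>
    Sum.elim (fun i => (![(1 / 4 : ℂ) • E, (1 / 4 : ℂ) • F, (1 / 8 : ℂ) • H] : Fin 3 → Usl2) (s i))
      (fun i => (![F, E, H] : Fin 3 → Usl2) (s i)) (D.pt.symm p)).prod

/-- `ξ` is a 4-invariant of graphs: it depends on the isomorphism class only and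
`ξ(G) - ξ(G'_{ab}) = ξ(G~_{ab}) - ξ(G~'_{ab})` for all `G` and all ordered pairs `a ≠ b`. -/
def IsFourInvariant (ξ : ∀ n : ℕ, SimpleGraph (Fin n) → ℂ) : Prop :=
  (∀ (n : ℕ) (G G' : SimpleGraph (Fin n)), Nonempty (G ≃g G') → ξ n G = ξ n G') ∧
  ∀ (n : ℕ) (G : SimpleGraph (Fin n)) (a b : Fin n), a ≠ b →
    ξ n G - ξ n (toggle G a b) = ξ n (slide G a b) - ξ n (toggle (slide G a b) a b)

/-- There is a 4-invariant `ξ` of graphs such that for every chord diagram `D` the value of `D` in
`U(sl(2))` is `p(C)` for exactly one polynomial `p` over `ℂ`, and `ξ(Γ(D)) = p(-3/32)`. -/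
theorem result : ∃ ξ : ∀ n : ℕ, SimpleGraph (Fin n) → ℂ, IsFourInvariant ξ ∧
    ∀ (n : ℕ) (D : ChordDiagram n), ∃ p : Polynomial ℂ,
      (Polynomial.aeval casimir p = value D ∧
        ∀ q : Polynomial ℂ, Polynomial.aeval casimir q = value D → q = p) ∧
      ξ n D.graph = p.eval (-3 / 32) := by
  refine ⟨fun n G => (-1 / 64) ^ n * val (S G), ⟨?_, ?_⟩, ?_⟩
  · rintro n G G' ⟨φ⟩
    have : S G = S G' := funext fun m => S_iso G G' φ m
    beta_reduce
    rw [this]
  · intro n G a b hab
    have := val_S_four G a b hab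
    linear_combination ((-1 / 64) ^ n : ℂ) * this
  · intro n D
    obtain ⟨p, hp, hu⟩ := existsUnique_poly D
    exact ⟨p, ⟨hp, fun q hq => hu q hq⟩, (eval_of_aeval D p hp).symm⟩

end Pool.Agent.Results.MP_4cfd5d_gt.OscillatorExtension
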